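import Pool.Agent.NH69.RB.Fin

/-!
Problem MP_651d35_co, Q1 (Seymour's conjecture on rainbow directed cycles under a total out-degree condition), up to
the constant factor `84 / 25 = 3.36`: if the out-degrees of every vertex in the edge sets `E_1, ..., E_k` add up to at
least `3.36 |V|`, then there is a rainbow directed cycle.
-/

set_option autoImplicit false

namespace Pool.Agent.Results.MP_651d35_co.ConstantFactor

theorem result (V : Type) [Fintype V] [Nonempty V] (k : ℕ) (G : Digraph V) (E : Fin k → Set (V × V))
    (hG : ∀ v : V, ¬ G.Adj v v) (hE : ∀ i : Fin k, ∀ p ∈ E i, G.Adj p.1 p.2)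
    (h : ∀ v : V, 84 * Fintype.card V ≤ 25 * ∑ i : Fin k, Set.ncard {w : V | (v, w) ∈ E i}) :
    ∃ (m : ℕ) (c : Fin m → V) (col : Fin m → Fin k),
      2 ≤ m ∧ Function.Injective c ∧ Function.Injective col ∧
      ∀ j : Fin m, (c j, c (finRotate m j)) ∈ E (col j) := by
  classical
  apply Pool.Agent.NH69.RB.final k (fun i v w => (v, w) ∈ E i)
  · intro i v hv
    exact hG v (hE i _ hv)
  · intro v
    refine (h v).trans (le_of_eq ?_)
    congr 1
    apply Finset.sum_congr rfl
    intro i _
    rw [Set.ncard_eq_toFinset_card']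
    congr 1
    ext w
    simp

end Pool.Agent.Results.MP_651d35_co.ConstantFactor
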